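import Pool.Agent.Q34.GP.M

/-!
# Geproci sets not lying on `a` skew lines

A nondegenerate `(a, b)`-geproci set with `b > a ^ 2 - a + 1` consists of `b` points on each of `a`
pairwise disjoint lines. Hence for every `a` there are only finitely many `b` for which there is a
nontrivial `(a, b)`-geproci set that is not contained in `a` skew lines.
-/

set_option autoImplicit false
open MvPolynomial
open scoped LinearAlgebra.Projectivization

namespace Pool.Agent.Results.MP_7fd0c9_ag.FinitelyMany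

/-- `Z` is not contained in a plane. -/
def Nondegenerate (Z : Finset (ℙ ℂ (Fin 4 → ℂ))) : Prop := (⨆ z ∈ Z, z.submodule) = ⊤

/-- The linear projection from `p` to the plane `x_3 = 0`, in coordinates. -/
def projection (p x : Fin 4 → ℂ) : Fin 3 → ℂ :=
  fun i => p (Fin.last 3) * x i.castSucc - x (Fin.last 3) * p i.castSucc

/-- `Z` is `(a, b)`-geproci: for a general point `p` the ideal of the projection of `Z` from `p` to
a plane is generated by a form of degree `a` and a form of degree `b`. -/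
def Geproci (Z : Finset (ℙ ℂ (Fin 4 → ℂ))) (a b : ℕ) : Prop :=
  ∃ h : MvPolynomial (Fin 4) ℂ, h ≠ 0 ∧ ∀ p : Fin 4 → ℂ, eval p h ≠ 0 →
    ∃ F G : MvPolynomial (Fin 3) ℂ, F.IsHomogeneous a ∧ G.IsHomogeneous b ∧
      ∀ f : MvPolynomial (Fin 3) ℂ, f ∈ Ideal.span {F, G} ↔
        ∀ z ∈ Z, ∀ t : ℂ, eval (t • projection p z.rep) f = 0

/-- `n` pairwise disjoint lines of `ℙ³` -/
structure SkewLines (n : ℕ) where
  /-- the lines, as two-dimensional subspaces -/
  line : Fin n → Submodule ℂ (Fin 4 → ℂ)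
  two : ∀ i, Module.finrank ℂ (line i) = 2
  skew : ∀ i j, i ≠ j → line i ⊓ line j = ⊥

/-- `Z` is contained in the union of the lines. -/
def SkewLines.Contain {n : ℕ} (L : SkewLines n) (Z : Finset (ℙ ℂ (Fin 4 → ℂ))) : Prop :=
  ∀ z ∈ Z, ∃ i, z.submodule ≤ L.line i

/-- `Z` is an `(a, b)`-grid: the set of the points of intersection of `a` pairwise disjoint lines
with `b` pairwise disjoint lines, each of the `a` lines meeting each of the `b` lines in a point. -/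
def IsGrid (Z : Finset (ℙ ℂ (Fin 4 → ℂ))) (a b : ℕ) : Prop :=
  2 ≤ a ∧ a ≤ b ∧ ∃ (L : SkewLines a) (M : SkewLines b),
    (∀ i j, Module.finrank ℂ (↥(L.line i ⊓ M.line j)) = 1) ∧
    ∀ z : ℙ ℂ (Fin 4 → ℂ), z ∈ Z ↔ ∃ i j, z.submodule = L.line i ⊓ M.line j

/-- `Z` is a nontrivial `(a, b)`-geproci set: nondegenerate and not a grid. -/
def NontrivialGeproci (Z : Finset (ℙ ℂ (Fin 4 → ℂ))) (a b : ℕ) : Prop :=
  Geproci Z a b ∧ Nondegenerate Z ∧ ¬ ∃ a' b', IsGrid Z a' b'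

/-- The set of the `b ≥ a` for which there is a nontrivial `(a, b)`-geproci set that is not
contained in `a` skew lines. -/
def S (a : ℕ) : Set ℕ :=
  {b | a ≤ b ∧ ∃ Z, NontrivialGeproci Z a b ∧ ¬ ∃ L : SkewLines a, L.Contain Z}

lemma sub_le_iff {z : ℙ ℂ (Fin 4 → ℂ)} {W : Submodule ℂ (Fin 4 → ℂ)} :
    z.submodule ≤ W ↔ z.rep ∈ W := by
  rw [Projectivization.submodule_eq, Submodule.span_singleton_le_iff_mem]

lemma pair_indep (k l : ℙ ℂ (Fin 4 → ℂ)) (hkl : k ≠ l) :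
    LinearIndependent ℂ ![k.rep, l.rep] := by
  rw [LinearIndependent.pair_iff' k.rep_nonzero]
  intro a ha
  apply hkl
  rw [← k.mk_rep, ← l.mk_rep, Projectivization.mk_eq_mk_iff']
  have ha0 : a ≠ 0 := by
    rintro rfl
    rw [zero_smul] at ha
    exact l.rep_nonzero ha.symm
  refine ⟨a⁻¹, ?_⟩
  rw [← ha, smul_smul, inv_mul_cancel₀ ha0, one_smul]

theorem structure_thm (Z : Finset (ℙ ℂ (Fin 4 → ℂ))) (a b : ℕ) (hG : Geproci Z a b)
    (hZ : Nondegenerate Z) (hab : a ^ 2 + 2 ≤ b + a) :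
    ∃ L : SkewLines a, L.Contain Z ∧
      ∀ i, Nat.card {z // z ∈ Z ∧ z.submodule ≤ L.line i} = b := by
  have hpair : ∀ k l : Z, k ≠ l → LinearIndependent ℂ ![k.1.rep, l.1.rep] := fun k l hkl =>
    pair_indep k.1 l.1 fun h => hkl (Subtype.ext h)
  have hsp : Submodule.span ℂ (Set.range fun z : Z => z.1.rep) = ⊤ := by
    rw [eq_top_iff, ← hZ]
    refine iSup_le fun z => iSup_le fun hz => ?_
    rw [sub_le_iff]
    exact Submodule.subset_span ⟨⟨z, hz⟩, rfl⟩
  have hGep : Pool.Agent.Y206.Q.Gep (fun z : Z => z.1.rep) a b := by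
    obtain ⟨h, hh, hp⟩ := hG
    refine ⟨h, hh, fun P hP => ?_⟩
    obtain ⟨F, G, hF, hG', hI⟩ := hp P hP
    refine ⟨F, G, hF, hG', fun f => ?_⟩
    rw [hI f]
    exact ⟨fun h2 k t => h2 k.1 k.2 t, fun h2 z hz t => h2 ⟨z, hz⟩ t⟩
  obtain ⟨L, h2, hL, hc, hb⟩ := Pool.Agent.Q34.GP.structure_vec hpair
    (fun z => z.1.rep_nonzero) hGep hsp (by rw [← pow_two]; exact hab)
  refine ⟨⟨L, h2, hL⟩, fun z hz => ?_, fun i => ?_⟩
  · obtain ⟨i, hi⟩ := hc ⟨z, hz⟩
    exact ⟨i, sub_le_iff.2 hi⟩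
  · rw [← hb i]
    refine Nat.card_congr ⟨fun z => ⟨⟨z.1, z.2.1⟩, sub_le_iff.1 z.2.2⟩,
      fun z => ⟨z.1.1, z.1.2, sub_le_iff.2 z.2⟩, fun z => rfl, fun z => rfl⟩

/-- **Main result.** Every nondegenerate `(a, b)`-geproci set with `b > a ^ 2 - a + 1` lies on `a`
pairwise disjoint lines, each of which contains exactly `b` points of the set. Hence all elements
of `S a` are at most `a ^ 2 - a + 1`, the set `S a` is finite for every `a`, and the answer to the
question whether `S a` is infinite for every `a > 3` is negative. -/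
theorem result :
    (∀ (Z : Finset (ℙ ℂ (Fin 4 → ℂ))) (a b : ℕ), Geproci Z a b → Nondegenerate Z →
      a ^ 2 - a + 1 < b → ∃ L : SkewLines a, L.Contain Z ∧
        ∀ i, Nat.card {z // z ∈ Z ∧ z.submodule ≤ L.line i} = b) ∧
    (∀ a b : ℕ, b ∈ S a → b ≤ a ^ 2 - a + 1) ∧ (∀ a : ℕ, (S a).Finite) ∧
    ¬ ∀ a : ℕ, 3 < a → (S a).Infinite := by
  have hst : ∀ (Z : Finset (ℙ ℂ (Fin 4 → ℂ))) (a b : ℕ), Geproci Z a b → Nondegenerate Z →
      a ^ 2 - a + 1 < b → ∃ L : SkewLines a, L.Contain Z ∧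
        ∀ i, Nat.card {z // z ∈ Z ∧ z.submodule ≤ L.line i} = b := by
    intro Z a b h1 h2 h3
    apply structure_thm Z a b h1 h2
    have : a ≤ a ^ 2 := Nat.le_self_pow two_ne_zero a
    omega
  have hbd : ∀ a b : ℕ, b ∈ S a → b ≤ a ^ 2 - a + 1 := by
    rintro a b ⟨-, Z, ⟨h1, h2, -⟩, h3⟩
    by_contra hcon
    push Not at hcon
    obtain ⟨L, hL, -⟩ := hst Z a b h1 h2 hcon
    exact h3 ⟨L, hL⟩
  have hfin : ∀ a : ℕ, (S a).Finite := fun a =>
    (Set.finite_Iic (a ^ 2 - a + 1)).subset fun b hb => hbd a b hb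
  exact ⟨hst, hbd, hfin, fun h => h 4 (by norm_num) (hfin 4)⟩

end Pool.Agent.Results.MP_7fd0c9_ag.FinitelyMany
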